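import Pool.Agent.V5helper23.PF.Stm

/-! # Job CON of project PF: continuity of the double sums -/

set_option autoImplicit false
set_option linter.all false

open MeasureTheory Set Real Filter Topology intervalIntegral
open scoped ENNReal NNReal

namespace Pool.Agent.V5helper59.PF

open Pool.Agent.Y308.BC Pool.Agent.V5helper93.NS Pool.Agent.V5helper23.PF

lemma summable_one_add_lam {τ : ℝ} (hτ : 0 < τ) :
    Summable fun n => (1 + lam n) * Real.exp (-(lam n) * τ) := by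
  have h1 : Summable fun n => (1 + 2 / τ) * Real.exp (-(lam n) * (τ / 2)) :=
    (exp_lam_summable (half_pos hτ)).mul_left _
  refine Summable.of_nonneg_of_le (fun n => ?_) (fun n => ?_) h1
  · have := lam_pos n
    positivity
  · have hl := lam_pos n
    have e1 : Real.exp (-(lam n) * τ) =
        Real.exp (-(lam n) * (τ / 2)) * Real.exp (-(lam n) * (τ / 2)) := by
      rw [← Real.exp_add]
      congr 1
      ring
    have e2 : Real.exp (-(lam n) * (τ / 2)) * Real.exp (lam n * (τ / 2)) = 1 := by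
      rw [← Real.exp_add, ← Real.exp_zero]
      congr 1
      ring
    have hE := Real.exp_pos (-(lam n) * (τ / 2))
    have h2 : lam n * (τ / 2) + 1 ≤ Real.exp (lam n * (τ / 2)) := Real.add_one_le_exp _
    have h3 : (lam n * (τ / 2) + 1) * Real.exp (-(lam n) * (τ / 2)) ≤ 1 := by
      have := mul_le_mul_of_nonneg_left h2 hE.le
      rw [e2] at this
      linarith
    have h4 : (1 + lam n) * Real.exp (-(lam n) * (τ / 2)) ≤ 1 + 2 / τ := by
      have h5 : 1 + lam n ≤ (1 + 2 / τ) * (lam n * (τ / 2) + 1) := by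
        have : (1 + 2 / τ) * (lam n * (τ / 2) + 1) =
            lam n * (τ / 2) + 1 + lam n + 2 / τ := by
          field_simp
          ring
        rw [this]
        have h6 : 0 < 2 / τ := by positivity
        have h7 : 0 < lam n * (τ / 2) := by positivity
        linarith
      calc (1 + lam n) * Real.exp (-(lam n) * (τ / 2))
          ≤ ((1 + 2 / τ) * (lam n * (τ / 2) + 1)) * Real.exp (-(lam n) * (τ / 2)) :=
            mul_le_mul_of_nonneg_right h5 hE.le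
        _ = (1 + 2 / τ) * ((lam n * (τ / 2) + 1) * Real.exp (-(lam n) * (τ / 2))) := by ring
        _ ≤ (1 + 2 / τ) * 1 := mul_le_mul_of_nonneg_left h3 (by positivity)
        _ = 1 + 2 / τ := mul_one _
    rw [e1, ← mul_assoc]
    exact mul_le_mul_of_nonneg_right h4 hE.le

lemma key {a b : ℝ} (ha : 0 < a) (hb : 0 < b) (f : ℕ → ℝ × ℝ → ℝ) (h : ℕ → ℝ → ℝ)
    (hf : ∀ k, ContinuousOn (f k) (Ioi 0 ×ˢ Icc (0:ℝ) 1))
    (hbd : ∀ s0 : ℝ, 0 < s0 → ∃ K : ℝ, 0 ≤ K ∧ ∀ k t x, s0 ≤ t → |x| ≤ 2 → |f k (t, x)| ≤ K)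
    (hh : ∀ k, Continuous (h k)) (hhb : ∀ k y, |h k y| ≤ 2 * (1 + lam k)) :
    ContinuousOn (fun q : ℝ × ℝ × ℝ => ∑' k, f k (a * q.1, q.2.1) *
      (Real.exp (-(lam k) * (b * q.1)) * h k q.2.2)) (Ioi 0 ×ˢ Icc 0 1 ×ˢ Icc 0 1) := by
  have h1 : ∀ s0 : ℝ, 0 < s0 → ContinuousOn (fun q : ℝ × ℝ × ℝ => ∑' k, f k (a * q.1, q.2.1) *
      (Real.exp (-(lam k) * (b * q.1)) * h k q.2.2)) (Ioi s0 ×ˢ Icc 0 1 ×ˢ Icc 0 1) := by
    intro s0 hs0
    obtain ⟨K, hK, hKb⟩ := hbd (a * s0) (by positivity)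
    have hsum : Summable fun k => K * 2 * ((1 + lam k) * Real.exp (-(lam k) * (b * s0))) :=
      (summable_one_add_lam (by positivity : 0 < b * s0)).mul_left _
    refine continuousOn_tsum (fun k => ?_) hsum ?_
    · refine ContinuousOn.mul ?_ ?_
      · refine (hf k).comp ?_ ?_
        · exact ((continuous_const.mul continuous_fst).prodMk
            (continuous_fst.comp continuous_snd)).continuousOn
        · rintro q ⟨hq1, hq2, hq3⟩
          have : (0:ℝ) < a * q.1 := mul_pos ha (lt_trans hs0 hq1)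
          exact ⟨this, hq2⟩
      · refine Continuous.continuousOn ?_
        refine Continuous.mul ?_ ((hh k).comp (continuous_snd.comp continuous_snd))
        exact Real.continuous_exp.comp (continuous_const.mul (continuous_const.mul continuous_fst))
    · rintro k q ⟨hq1, hq2, hq3⟩
      have hq1' : s0 < q.1 := hq1
      have hl := lam_pos k
      rw [Real.norm_eq_abs, abs_mul, abs_mul, abs_of_pos (Real.exp_pos _)]
      have b1 : |f k (a * q.1, q.2.1)| ≤ K := by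
        apply hKb
        · exact mul_le_mul_of_nonneg_left hq1'.le ha.le
        · rw [abs_of_nonneg hq2.1]
          linarith [hq2.2]
      have b2 : Real.exp (-(lam k) * (b * q.1)) ≤ Real.exp (-(lam k) * (b * s0)) := by
        apply Real.exp_le_exp.2
        have : b * s0 ≤ b * q.1 := mul_le_mul_of_nonneg_left hq1'.le hb.le
        nlinarith
      calc |f k (a * q.1, q.2.1)| * (Real.exp (-(lam k) * (b * q.1)) * |h k q.2.2|)
          ≤ K * (Real.exp (-(lam k) * (b * s0)) * (2 * (1 + lam k))) := by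
            apply mul_le_mul b1 _ (by positivity) hK
            exact mul_le_mul b2 (hhb k _) (abs_nonneg _) (Real.exp_pos _).le
        _ = K * 2 * ((1 + lam k) * Real.exp (-(lam k) * (b * s0))) := by ring
  intro q hq
  have hq1 : (0:ℝ) < q.1 := hq.1
  refine ((h1 (q.1 / 2) (half_pos hq1)) q
    ⟨by simp only [mem_Ioi]; linarith, hq.2⟩).mono_of_mem_nhdsWithin ?_
  rw [mem_nhdsWithin]
  exact ⟨Ioi (q.1 / 2) ×ˢ univ, isOpen_Ioi.prod isOpen_univ,
    ⟨by simp only [mem_Ioi]; linarith, mem_univ _⟩, fun p hp => ⟨hp.1.1, hp.2.2⟩⟩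

lemma sqrt2_le : √2 ≤ (2:ℝ) := by
  rw [Real.sqrt_le_left (by norm_num)]
  norm_num

lemma es_bd (k : ℕ) (y : ℝ) : |es k y| ≤ 2 * (1 + lam k) := by
  have := es_le k y
  have := lam_pos k
  have := sqrt2_le
  linarith

lemma kec_bd (k : ℕ) (y : ℝ) : |kk k * ec k y| ≤ 2 * (1 + lam k) := by
  rw [abs_mul, abs_of_pos (kk_pos k)]
  have h1 := ec_le k y
  have h2 := kk_pos k
  have h3 := sqrt2_le
  have h4 : kk k * |ec k y| ≤ kk k * 2 := mul_le_mul_of_nonneg_left (h1.trans h3) h2.le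
  have h5 : lam k = kk k ^ 2 := rfl
  nlinarith [sq_nonneg (kk k - 1)]

lemma les_bd (k : ℕ) (y : ℝ) : |-(lam k) * es k y| ≤ 2 * (1 + lam k) := by
  rw [abs_mul, abs_neg, abs_of_pos (lam_pos k)]
  have h1 := es_le k y
  have h2 := lam_pos k
  have h3 := sqrt2_le
  have h4 : lam k * |es k y| ≤ lam k * 2 := mul_le_mul_of_nonneg_left (h1.trans h3) h2.le
  linarith

theorem t_CON (hB : S_BND) : S_CON := by
  intro a b σ m c ha hb hσ hc
  obtain ⟨hm, hc⟩ := hc
  have b0 : ∀ s0 : ℝ, 0 < s0 → ∃ K : ℝ, 0 ≤ K ∧ ∀ (k : ℕ) (t x : ℝ), s0 ≤ t → |x| ≤ 2 →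
      |(fun q : ℝ × ℝ => w (c k) σ q.1 q.2) (t, x)| ≤ K := by
    intro s0 hs0
    obtain ⟨K, hK, h⟩ := hB σ s0 hσ hs0
    exact ⟨K * m, by positivity, fun k t x ht hx => (h (c k) m hm (hc k) t x ht hx).1⟩
  have b1 : ∀ s0 : ℝ, 0 < s0 → ∃ K : ℝ, 0 ≤ K ∧ ∀ (k : ℕ) (t x : ℝ), s0 ≤ t → |x| ≤ 2 →
      |(fun q : ℝ × ℝ => wx (c k) σ q.1 q.2) (t, x)| ≤ K := by
    intro s0 hs0
    obtain ⟨K, hK, h⟩ := hB σ s0 hσ hs0
    exact ⟨K * m, by positivity, fun k t x ht hx => (h (c k) m hm (hc k) t x ht hx).2.1⟩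
  have b2 : ∀ s0 : ℝ, 0 < s0 → ∃ K : ℝ, 0 ≤ K ∧ ∀ (k : ℕ) (t x : ℝ), s0 ≤ t → |x| ≤ 2 →
      |(fun q : ℝ × ℝ => wxx (c k) σ q.1 q.2) (t, x)| ≤ K := by
    intro s0 hs0
    obtain ⟨K, hK, h⟩ := hB σ s0 hσ hs0
    exact ⟨K * m, by positivity, fun k t x ht hx => (h (c k) m hm (hc k) t x ht hx).2.2⟩
  have c0 : ∀ k, ContinuousOn (fun q : ℝ × ℝ => w (c k) σ q.1 q.2) (Ioi 0 ×ˢ Icc (0:ℝ) 1) :=
    fun k => w_cont hm (hc k) hσ
  have c1 : ∀ k, ContinuousOn (fun q : ℝ × ℝ => wx (c k) σ q.1 q.2) (Ioi 0 ×ˢ Icc (0:ℝ) 1) :=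
    fun k => wx_cont hm (hc k) hσ
  have c2 : ∀ k, ContinuousOn (fun q : ℝ × ℝ => wxx (c k) σ q.1 q.2) (Ioi 0 ×ˢ Icc (0:ℝ) 1) :=
    fun k => wxx_cont hm (hc k) hσ
  refine ⟨?_, ?_, ?_, ?_, ?_, ?_⟩
  · exact key ha hb (fun k q => w (c k) σ q.1 q.2) es c0 b0 es_cont es_bd
  · exact key ha hb (fun k q => wx (c k) σ q.1 q.2) es c1 b1 es_cont es_bd
  · exact key ha hb (fun k q => w (c k) σ q.1 q.2) (fun k y => kk k * ec k y) c0 b0
      (fun k => continuous_const.mul (ec_cont k)) kec_bd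
  · exact key ha hb (fun k q => wxx (c k) σ q.1 q.2) es c2 b2 es_cont es_bd
  · exact key ha hb (fun k q => wx (c k) σ q.1 q.2) (fun k y => kk k * ec k y) c1 b1
      (fun k => continuous_const.mul (ec_cont k)) kec_bd
  · exact key ha hb (fun k q => w (c k) σ q.1 q.2) (fun k y => -(lam k) * es k y) c0 b0
      (fun k => continuous_const.mul (es_cont k)) les_bd

end Pool.Agent.V5helper59.PF
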